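import Mathlib

/-!
A logic engine for the maximum norm.  A strip of width two in the king's graph is straight, and
each of its rungs can be turned over on its own.
-/

namespace Pool.Agent.Lib.MP_0e6856_lc.King

/-- The rows that carry flags. -/
def Row (M y : ℤ) : Prop :=
  (y % 3 = 1 ∧ 4 ≤ y ∧ y ≤ 3 * M + 1) ∨ (y % 3 = 0 ∧ -3 * M ≤ y ∧ y ≤ -3)

/-- The points of the engine: the shaft, the armatures and the flags.  Cell `j` consists of the
columns `4 j, …, 4 j + 3`; the cells `0` and `n + 1` have flags on both sides. -/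
def S (n M : ℤ) (occ : ℤ → ℤ → Prop) (X y : ℤ) : Prop :=
  0 ≤ X ∧ X < 4 * (n + 2) ∧ (y = 0 ∨ y = 1 ∨
    ((X % 4 = 1 ∨ X % 4 = 2) ∧ -3 * M - 1 ≤ y ∧ y ≤ 3 * M + 2) ∨
    (Row M y ∧ (((X % 4 = 0 ∨ X % 4 = 3) ∧ (X / 4 = 0 ∨ X / 4 = n + 1)) ∨
      (X % 4 = 3 ∧ (y < 0 ∨ ¬occ (X / 4) ((y - 4) / 3))))))

/-- The edges: king's moves inside a cell or along the shaft. -/
def Adj (X y X' y' : ℤ) : Prop :=
  ¬(X = X' ∧ y = y') ∧ X ≤ X' + 1 ∧ X' ≤ X + 1 ∧ y ≤ y' + 1 ∧ y' ≤ y + 1 ∧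
    (X / 4 = X' / 4 ∨ ((y = 0 ∨ y = 1) ∧ (y' = 0 ∨ y' = 1)))

/-- The assignment `ν` splits every clause. -/
def Split (n M : ℤ) (occ : ℤ → ℤ → Prop) (ν : ℤ → Bool) : Prop :=
  ∀ i, 0 ≤ i → i < M → ∀ σ, ∃ j, 1 ≤ j ∧ j ≤ n ∧ occ j i ∧ ν j = σ

/-- Maximum norm at most one. -/
def Near (a b : ℝ) : Prop := -1 ≤ a ∧ a ≤ 1 ∧ -1 ≤ b ∧ b ≤ 1

/-- Maximum norm at least one. -/
def Sep (a b : ℝ) : Prop := 1 ≤ a ∨ a ≤ -1 ∨ 1 ≤ b ∨ b ≤ -1

/-- Maximum norm equal to one. -/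
def Touch (a b : ℝ) : Prop := Sep a b ∧ Near a b

/-- A contact representation of the engine in the maximum norm. -/
def Emb (n M : ℤ) (occ : ℤ → ℤ → Prop) (u v : ℤ → ℤ → ℝ) : Prop :=
  ∀ X y X' y', S n M occ X y → S n M occ X' y' → ¬(X = X' ∧ y = y') →
    Sep (u X y - u X' y') (v X y - v X' y') ∧
      (Adj X y X' y' ↔ Near (u X y - u X' y') (v X y - v X' y'))

/-- The placement of the rows. -/
def pv (ν : ℤ → Bool) (X y : ℤ) : ℤ := if ν (X / 4) = true then y else 1 - y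

/-- The flag row of the block of three rows that contains row `y`. -/
def blk (y : ℤ) : ℤ := if 3 ≤ y then 3 * (y / 3) + 1 else 3 * ((y + 1) / 3)

/-- The placement of the columns. -/
def pu (ν : ℤ → Bool) (c : ℤ → ℤ) (X y : ℤ) : ℤ :=
  if (3 ≤ y ∨ y ≤ -2) ∧ c (blk (pv ν X y)) < X / 4 then 8 * (X / 4) + 3 - X else X

variable {n M : ℤ} {occ : ℤ → ℤ → Prop}

theorem exists_hole {ν : ℤ → Bool} (h : Split n M occ ν) : ∃ c : ℤ → ℤ,
    (∀ y, Row M y → 1 ≤ c y ∧ c y ≤ n) ∧ ∀ X y, S n M occ X y → Row M y →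
      (X % 4 = 0 ∨ X % 4 = 3) → X / 4 ≠ c (pv ν X y) := by
  have : ∀ y, ∃ j, Row M y → 1 ≤ j ∧ j ≤ n ∧
      occ j (if 0 < y then (y - 4) / 3 else (-3 - y) / 3) ∧ ν j = decide (0 < y) := by
    intro y
    by_cases hy : Row M y
    · obtain ⟨j, hj⟩ := h (if 0 < y then (y - 4) / 3 else (-3 - y) / 3)
        (by unfold Row at hy; split_ifs <;> omega) (by unfold Row at hy; split_ifs <;> omega)
        (decide (0 < y))
      exact ⟨j, fun _ => hj⟩
    · exact ⟨0, fun a => absurd a hy⟩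
  choose c hc using this
  refine ⟨c, fun y hy => ⟨(hc y hy).1, (hc y hy).2.1⟩, fun X y hs hy hx e => ?_⟩
  have hr : Row M (pv ν X y) := by
    unfold Row at hy ⊢
    unfold pv
    split_ifs <;> omega
  obtain ⟨c1, c2, c3, c4⟩ := hc _ hr
  rw [← e] at c1 c2 c3 c4
  have key : 0 < y ∧ (if 0 < pv ν X y then (pv ν X y - 4) / 3 else (-3 - pv ν X y) / 3) =
      (y - 4) / 3 := by
    unfold Row at hy
    unfold pv at c4 ⊢
    cases hν : ν (X / 4)
    · rw [hν] at c4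
      simp only [Bool.false_eq_true, if_false] at c4 ⊢
      have := of_decide_eq_false c4.symm
      rw [if_neg this]
      omega
    · rw [hν] at c4
      simp only [if_true] at c4 ⊢
      have := of_decide_eq_true c4.symm
      rw [if_pos this]
      omega
  rw [key.2] at c3
  obtain ⟨-, -, hs⟩ := hs
  unfold Row at hy
  rcases hs with a | a | a | ⟨-, a | ⟨-, a | a⟩⟩
  · omega
  · omega
  · omega
  · omega
  · omega
  · exact a c3

theorem shape {X y : ℤ} (h : S n M occ X y) : 0 ≤ X ∧ X < 4 * (n + 2) ∧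
    (y = 0 ∨ y = 1 ∨ ((X % 4 = 1 ∨ X % 4 = 2) ∧ -3 * M - 1 ≤ y ∧ y ≤ 3 * M + 2) ∨
      (Row M y ∧ (X % 4 = 3 ∨ (X % 4 = 0 ∧ (X / 4 = 0 ∨ X / 4 = n + 1))))) := by
  obtain ⟨a, b, h⟩ := h
  refine ⟨a, b, h.imp_right (Or.imp_right (Or.imp_right fun h => ⟨h.1, ?_⟩))⟩
  rcases h.2 with ⟨c | c, d⟩ | c
  · exact Or.inr ⟨c, d⟩
  · exact Or.inl c
  · exact Or.inl c.1

theorem pv_cases (ν : ℤ → Bool) (X y : ℤ) : pv ν X y = y ∨ pv ν X y = 1 - y := by
  unfold pv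
  split_ifs <;> omega

theorem kinds {ν : ℤ → Bool} {c : ℤ → ℤ} (hc : ∀ y, Row M y → 1 ≤ c y ∧ c y ≤ n) {X y : ℤ}
    (s : S n M occ X y) (k : Row M y → (X % 4 = 0 ∨ X % 4 = 3) → X / 4 ≠ c (pv ν X y)) :
    ((y = 0 ∨ y = 1) ∧ (pv ν X y = 0 ∨ pv ν X y = 1) ∧ pu ν c X y = X) ∨
    (¬(y = 0 ∨ y = 1) ∧ (pu ν c X y = 4 * (X / 4) + 1 ∨ pu ν c X y = 4 * (X / 4) + 2)) ∨
    (¬(y = 0 ∨ y = 1) ∧ Row M (pv ν X y) ∧ X / 4 ≤ n + 1 ∧ 0 ≤ X / 4 ∧
      ((pu ν c X y = 4 * (X / 4) + 3 ∧ (X / 4 < c (pv ν X y) ∨ X / 4 = n + 1)) ∨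
        (pu ν c X y = 4 * (X / 4) ∧ (c (pv ν X y) < X / 4 ∨ X / 4 = 0)))) := by
  have p := pv_cases ν X y
  obtain ⟨a, b, t⟩ := shape s
  by_cases hy : y = 0 ∨ y = 1
  · refine Or.inl ⟨hy, by omega, ?_⟩
    unfold pu
    rw [if_neg (by omega)]
  refine Or.inr ?_
  rcases t with t | t | t | ⟨r, t⟩
  · omega
  · omega
  · refine Or.inl ⟨hy, ?_⟩
    unfold pu
    split_ifs <;> omega
  have hr : Row M (pv ν X y) := by
    unfold Row at r ⊢
    omega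
  have e : blk (pv ν X y) = pv ν X y := by
    unfold Row at hr
    unfold blk
    split_ifs <;> omega
  have h1 := hc _ hr
  have h2 := k r (by omega)
  have h3 : 3 ≤ y ∨ y ≤ -2 := by
    unfold Row at r
    omega
  refine Or.inr ⟨hy, hr, by omega, by omega, ?_⟩
  unfold pu
  rw [e]
  split_ifs <;> omega

theorem same_cell {ν : ℤ → Bool} {c : ℤ → ℤ} {X y X' y' : ℤ} (s : S n M occ X y)
    (s' : S n M occ X' y') (hj : X / 4 = X' / 4) (h1 : y ≤ y' + 1) (h2 : y' ≤ y + 1) :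
    pu ν c X y - pu ν c X' y' = X - X' ∨ pu ν c X y - pu ν c X' y' = X' - X ∨
      (y ≠ y' ∧ X ≤ X' + 1 ∧ X' ≤ X + 1 ∧ pu ν c X y ≤ pu ν c X' y' + 1 ∧
        pu ν c X' y' ≤ pu ν c X y + 1) := by
  have pp : (pv ν X y = y ∧ pv ν X' y' = y') ∨ (pv ν X y = 1 - y ∧ pv ν X' y' = 1 - y') := by
    unfold pv
    rw [hj]
    split_ifs <;> omega
  by_cases e : ((3 ≤ y ∨ y ≤ -2) ↔ (3 ≤ y' ∨ y' ≤ -2)) ∧
      ((3 ≤ y ∨ y ≤ -2) → blk (pv ν X y) = blk (pv ν X' y'))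
  · by_cases f : 3 ≤ y ∨ y ≤ -2
    · unfold pu
      rw [e.2 f, hj]
      simp only [f, e.1.1 f, true_and]
      split_ifs <;> omega
    · unfold pu
      rw [if_neg (fun h => f h.1), if_neg (fun h => f (e.1.2 h.1))]
      omega
  · have t := (shape s).2.2
    have t' := (shape s').2.2
    have x : y ≠ y' ∧ (X % 4 = 1 ∨ X % 4 = 2) ∧ (X' % 4 = 1 ∨ X' % 4 = 2) := by
      unfold Row at t t'
      unfold blk at e
      rcases pp with ⟨a, b⟩ | ⟨a, b⟩ <;> rw [a, b] at e <;> split_ifs at e <;> omega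
    refine Or.inr (Or.inr ?_)
    unfold pu
    split_ifs <;> omega

theorem place {ν : ℤ → Bool} (h : Split n M occ ν) : ∃ a b : ℤ → ℤ → ℤ, ∀ X y X' y',
    S n M occ X y → S n M occ X' y' → ¬(X = X' ∧ y = y') →
      ¬(a X y = a X' y' ∧ b X y = b X' y') ∧ (Adj X y X' y' ↔
        a X y ≤ a X' y' + 1 ∧ a X' y' ≤ a X y + 1 ∧ b X y ≤ b X' y' + 1 ∧ b X' y' ≤ b X y + 1) := by
  obtain ⟨c, hc, hh⟩ := exists_hole h
  refine ⟨pu ν c, pv ν, fun X y X' y' s s' ne => ?_⟩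
  unfold Adj
  by_cases hj : X / 4 = X' / 4
  · have pp : pv ν X y - pv ν X' y' = y - y' ∨ pv ν X y - pv ν X' y' = y' - y := by
      unfold pv
      rw [hj]
      split_ifs <;> omega
    by_cases hy : y ≤ y' + 1 ∧ y' ≤ y + 1
    · have := same_cell (ν := ν) (c := c) s s' hj hy.1 hy.2
      omega
    · omega
  · have k := kinds hc s (hh X y s)
    have k' := kinds hc s' (hh X' y' s')
    have row : ∀ z, Row M z → 4 ≤ z ∨ z ≤ -3 := fun z r => by
      unfold Row at r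
      omega
    have key : pu ν c X y ≤ pu ν c X' y' + 1 ∧ pu ν c X' y' ≤ pu ν c X y + 1 ∧
        pv ν X y ≤ pv ν X' y' + 1 ∧ pv ν X' y' ≤ pv ν X y + 1 →
        (y = 0 ∨ y = 1) ∧ (y' = 0 ∨ y' = 1) := by
      intro hn
      rcases k with k | k | ⟨-, r, k⟩ <;> rcases k' with k' | k' | ⟨-, r', k'⟩
      · exact ⟨k.1, k'.1⟩
      · omega
      · have := row _ r'
        omega
      · omega
      · omega
      · omega
      · have := row _ r
        omega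
      · omega
      · have e : pv ν X y = pv ν X' y' := by
          unfold Row at r r'
          clear k k'
          omega
        rw [e] at k
        omega
    by_cases hs : (y = 0 ∨ y = 1) ∧ (y' = 0 ∨ y' = 1)
    · have a := (k.resolve_right fun h => h.elim (fun h => h.1 hs.1) fun h => h.1 hs.1).2
      have a' := (k'.resolve_right fun h => h.elim (fun h => h.1 hs.2) fun h => h.1 hs.2).2
      clear k k' key
      omega
    · clear k k'
      refine ⟨fun e => hs (key (by omega)), fun e => ?_, fun e => absurd (key e) hs⟩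
      exact absurd (e.2.2.2.2.2.resolve_left hj) hs

end Pool.Agent.Lib.MP_0e6856_lc.King
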