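import Pool.Agent.Lib.MP_0e6856_lc.King.Sound
import Pool.Agent.Lib.MP_0e6856_lc.All.HardT

/-!
The reduction from monotone not-all-equal 3-SAT to contact graphs of squares.
-/

namespace Pool.Agent.Lib.MP_0e6856_lc.King

open N68a2faeb Pool.Agent.Shared.PolyTime N487b59b3

theorem E_two_one : E 2 1 = Complex.I := by
  apply Complex.ext
  · rw [E_re]
    simp
  · rw [E_im]
    simp

theorem nu_two (z : ℂ) : nu 2 z = |z.re| + |z.im| := by
  obtain ⟨i, α, β, a, b, c, -, e⟩ := nu_sector (K := 2) le_rfl z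
  have h2 : E 2 2 = -1 := E_K (K := 2) le_rfl
  have h3 : E 2 (-1) = -Complex.I := by
    have := E_sub_K (K := 2) le_rfl 1
    rw [E_two_one] at this
    simpa using this
  obtain ⟨h, h1, h1', hi⟩ := exists_rep (K := 2) le_rfl i
  rw [E_add, hi, E_two_one] at c
  have : h = -1 ∨ h = 0 ∨ h = 1 ∨ h = 2 := by omega
  rw [e, c]
  rcases this with rfl | rfl | rfl | rfl
  · simp [h3, abs_of_nonneg a, abs_of_nonneg b, add_comm]
  · simp [abs_of_nonneg a, abs_of_nonneg b]
  · simp [E_two_one, abs_of_nonneg a, abs_of_nonneg b, add_comm]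
  · simp [h2, abs_of_nonneg a, abs_of_nonneg b]

theorem nu_near (z : ℂ) : nu 2 z ≤ 1 ↔ Near (z.re + z.im) (z.re - z.im) := by
  rw [nu_two, Near]
  rcases abs_cases z.re with a | a <;> rcases abs_cases z.im with b | b <;> rw [a.1, b.1] <;>
    exact ⟨fun h => ⟨by linarith [a.2, b.2], by linarith [a.2, b.2], by linarith [a.2, b.2],
      by linarith [a.2, b.2]⟩, fun ⟨h1, h2, h3, h4⟩ => by linarith⟩

theorem nu_sep (z : ℂ) : 1 ≤ nu 2 z ↔ Sep (z.re + z.im) (z.re - z.im) := by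
  rw [nu_two, Sep]
  refine ⟨fun h => ?_, fun h => ?_⟩
  · rcases abs_cases z.re with a | a <;> rcases abs_cases z.im with b | b <;> rw [a.1, b.1] at h
    · exact Or.inl h
    · exact Or.inr (Or.inr (Or.inl (by linarith)))
    · exact Or.inr (Or.inr (Or.inr (by linarith)))
    · exact Or.inr (Or.inl (by linarith))
  · have a := le_abs_self z.re
    have b := neg_abs_le z.re
    have c := le_abs_self z.im
    have d := neg_abs_le z.im
    rcases h with h | h | h | h <;> linarith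

/-- Variable `j` occurs in clause `i`. -/
def occ (φ : Inst) (j i : ℤ) : Prop := j = idx φ (φ.getD i.toNat (0, 0, 0)).1 ∨
  j = idx φ (φ.getD i.toNat (0, 0, 0)).2.1 ∨ j = idx φ (φ.getD i.toNat (0, 0, 0)).2.2

/-- A bound for all coordinates. -/
def bd (φ : Inst) : ℕ := 4 * (nN φ + 2) + 3 * φ.length + 2

def ints (φ : Inst) : List ℤ := (List.range (2 * bd φ + 1)).map fun i : ℕ => (i : ℤ) - bd φ

open Classical in
/-- The points of the engine. -/
noncomputable def pts (φ : Inst) : List (ℤ × ℤ) :=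
  (ints φ ×ˢ ints φ).filter fun v => decide (S (nN φ) φ.length (occ φ) v.1 v.2)

open Classical in
/-- The graph of the engine. -/
noncomputable def engine (φ : Inst) : List ℕ × List (ℕ × ℕ) :=
  ((pts φ).map numberOf,
    ((pts φ ×ˢ pts φ).filter fun e => decide (Adj e.1.1 e.1.2 e.2.1 e.2.2)).map
      fun e => (numberOf e.1, numberOf e.2))

theorem mem_ints {φ : Inst} {z : ℤ} (h1 : -bd φ ≤ z) (h2 : z ≤ bd φ) : z ∈ ints φ :=
  List.mem_map.2 ⟨(z + bd φ).toNat, List.mem_range.2 (by omega), by omega⟩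

theorem mem_pts {φ : Inst} {v : ℤ × ℤ} : v ∈ pts φ ↔ S (nN φ) φ.length (occ φ) v.1 v.2 := by
  simp only [pts, List.mem_filter, decide_eq_true_eq, and_iff_right_iff_imp]
  intro hv
  obtain ⟨X, y⟩ := v
  have := shape hv
  have e : (bd φ : ℤ) = 4 * (nN φ + 2) + 3 * φ.length + 2 := by simp [bd]
  unfold Row at this
  dsimp only at this
  exact List.mem_product.2 ⟨mem_ints (by omega) (by omega), mem_ints (by omega) (by omega)⟩

theorem engine_adj {φ : Inst} {u v : ℤ × ℤ} (hu : S (nN φ) φ.length (occ φ) u.1 u.2)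
    (hv : S (nN φ) φ.length (occ φ) v.1 v.2) (a b : {x : ℕ // x ∈ (engine φ).1})
    (ha : a.1 = numberOf u) (hb : b.1 = numberOf v) :
    (listGraph (engine φ)).Adj a b ↔ Adj u.1 u.2 v.1 v.2 := by
  have key : ∀ u v : ℤ × ℤ, (numberOf u, numberOf v) ∈ (engine φ).2 ↔
      S (nN φ) φ.length (occ φ) u.1 u.2 ∧ S (nN φ) φ.length (occ φ) v.1 v.2 ∧
        Adj u.1 u.2 v.1 v.2 := by
    intro u v
    simp only [engine, List.mem_map, List.mem_filter, decide_eq_true_eq, Prod.mk.injEq,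
      numberOf_injective.eq_iff]
    constructor
    · rintro ⟨⟨u', v'⟩, ⟨h1, h2⟩, rfl, rfl⟩
      rw [List.mem_product, mem_pts, mem_pts] at h1
      exact ⟨h1.1, h1.2, h2⟩
    · rintro ⟨h1, h2, h3⟩
      exact ⟨(u, v), ⟨List.mem_product.2 ⟨mem_pts.2 h1, mem_pts.2 h2⟩, h3⟩, rfl, rfl⟩
  simp only [listGraph, SimpleGraph.fromRel_adj, ha, hb, key]
  refine ⟨fun h => h.2.elim (fun h => h.2.2) fun h => ?_, fun h => ⟨fun e => ?_, Or.inl ⟨hu, hv, h⟩⟩⟩
  · have := h.2.2
    unfold Adj at this ⊢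
    omega
  · have : u = v := numberOf_injective (by rw [← ha, ← hb, e])
    exact h.1 (by rw [this]; exact ⟨rfl, rfl⟩)

theorem engine_correct (φ : Inst) : MonoNAE3 φ ↔ ∃ p, TModel 2 (listGraph (engine φ)) p := by
  rw [nae_iff_ht 0 0]
  change (∃ ν, Split (nN φ) φ.length (occ φ) ν) ↔ _
  constructor
  · rintro ⟨ν, hν⟩
    obtain ⟨a, b, hab⟩ := place hν
    have : ∀ x : {x : ℕ // x ∈ (engine φ).1}, ∃ v : ℤ × ℤ,
        S (nN φ) φ.length (occ φ) v.1 v.2 ∧ x.1 = numberOf v := by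
      rintro ⟨x, hx⟩
      obtain ⟨v, hv, rfl⟩ := List.mem_map.1 hx
      exact ⟨v, mem_pts.1 hv, rfl⟩
    choose f hf hf' using this
    refine ⟨fun x => ⟨(a (f x).1 (f x).2 + b (f x).1 (f x).2) / 2,
      (a (f x).1 (f x).2 - b (f x).1 (f x).2) / 2⟩, fun x y hxy => ?_⟩
    have ne : ¬((f x).1 = (f y).1 ∧ (f x).2 = (f y).2) := fun h =>
      hxy (Subtype.ext (by rw [hf', hf', Prod.ext h.1 h.2]))
    obtain ⟨k1, k2⟩ := hab _ _ _ _ (hf x) (hf y) ne
    rw [engine_adj (hf x) (hf y) x y (hf' x) (hf' y), nu_near, nu_sep, k2]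
    simp only [Complex.sub_re, Complex.sub_im]
    generalize a (f x).1 (f x).2 = a₁ at *
    generalize a (f y).1 (f y).2 = a₂ at *
    generalize b (f x).1 (f x).2 = b₁ at *
    generalize b (f y).1 (f y).2 = b₂ at *
    have e1 : ((a₁ : ℝ) + b₁) / 2 - (a₂ + b₂) / 2 + ((a₁ - b₁) / 2 - (a₂ - b₂) / 2) =
        ((a₁ - a₂ : ℤ) : ℝ) := by push_cast; ring
    have e2 : ((a₁ : ℝ) + b₁) / 2 - (a₂ + b₂) / 2 - ((a₁ - b₁) / 2 - (a₂ - b₂) / 2) =
        ((b₁ - b₂ : ℤ) : ℝ) := by push_cast; ring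
    rw [e1, e2, Sep, Near]
    norm_cast
    omega
  · rintro ⟨p, hp⟩
    classical
    have m : ∀ X y, S (nN φ) φ.length (occ φ) X y → numberOf (X, y) ∈ (engine φ).1 :=
      fun X y hv => List.mem_map.2 ⟨(X, y), mem_pts.2 hv, rfl⟩
    obtain ⟨q, hq⟩ : ∃ q : ℤ → ℤ → ℂ, ∀ X y (h : S (nN φ) φ.length (occ φ) X y),
        q X y = p ⟨_, m X y h⟩ :=
      ⟨fun X y => if h : S (nN φ) φ.length (occ φ) X y then p ⟨_, m X y h⟩ else 0,
        fun X y h => dif_pos h⟩
    refine sound (by omega) (by omega) (u := fun X y => (q X y).re + (q X y).im)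
      (v := fun X y => (q X y).re - (q X y).im) fun X y X' y' s s' ne => ?_
    have := hp ⟨_, m X y s⟩ ⟨_, m X' y' s'⟩ fun h =>
      ne (Prod.mk.inj (numberOf_injective (congrArg Subtype.val h)))
    rw [engine_adj (u := (X, y)) (v := (X', y')) s s' _ _ rfl rfl, nu_near, nu_sep, ← hq X y s,
      ← hq X' y' s'] at this
    simp only [Complex.sub_re, Complex.sub_im] at this
    have e1 : ∀ a b c d : ℝ, a + b - (c + d) = a - c + (b - d) := fun a b c d => by ring
    have e2 : ∀ a b c d : ℝ, a - b - (c - d) = a - c - (b - d) := fun a b c d => by ring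
    rw [e1, e2 (q X y).re (q X y).im]
    exact this

theorem engine_polyTime : IsPolyTime engine := by
  classical
  have h1 : IsPolyTime vars := by unfold vars; fun_prop
  have h2 : IsPolyTime (fun z : Inst × ℕ => idx z.1 z.2) := by unfold idx; fun_prop
  have h3 : IsPolyTime nN := by unfold nN; fun_prop
  have h7 : IsPolyTime bd := by unfold bd; fun_prop
  have h8 : PolyBdd bd := by unfold bd nN; fun_prop
  have h9 : IsPolyTime ints := by unfold ints; fun_prop
  have h10 : IsPolyTime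
      (fun z : Inst × ℤ × ℤ => decide (S (nN z.1) z.1.length (occ z.1) z.2.1 z.2.2)) := by
    simp only [S, Row, occ]
    fun_prop
  have h11 : IsPolyTime pts := by unfold pts; fun_prop
  have h12 : IsPolyTime
      (fun z : (ℤ × ℤ) × ℤ × ℤ => decide (Adj z.1.1 z.1.2 z.2.1 z.2.2)) := by
    simp only [Adj]
    fun_prop
  have h13 := isPolyTime_numberOf (V := ℤ × ℤ)
  unfold engine
  fun_prop

theorem npHard_two : NPHard (fun x : List ℕ × List (ℕ × ℕ) => ∃ p, TModel 2 (listGraph x) p) :=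
  npHardOn_monoNAE3.npHard_of_reduce engine engine_polyTime fun φ _ => engine_correct φ

end Pool.Agent.Lib.MP_0e6856_lc.King
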