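import Pool.Agent.Lib.MP_0e6856_lc.King.Eng

/-!
Every contact representation of the engine gives an assignment that splits all clauses.
-/

namespace Pool.Agent.Lib.MP_0e6856_lc.King

/-- Two points form the rung number `i` of a strip over the interval `[k, k + 1]`. -/
def Rung (k i a₁ a₂ b₁ b₂ : ℝ) : Prop :=
  a₁ = i ∧ b₁ = i ∧ ((a₂ = k ∧ b₂ = k + 1) ∨ (a₂ = k + 1 ∧ b₂ = k))

theorem Touch.swap {a b : ℝ} (h : Touch a b) : Touch b a := by
  unfold Touch Sep Near at *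
  tauto

theorem near_swap {a b : ℝ} : Near a b ↔ Near b a := by
  unfold Near
  tauto

theorem near_neg {a b : ℝ} : Near (-a) b ↔ Near a b := by
  unfold Near
  constructor <;> rintro ⟨h1, h2, h3⟩ <;> exact ⟨by linarith, by linarith, h3⟩

theorem Sep.neg {a b : ℝ} (h : Sep a b) : Sep (-a) b := by
  unfold Sep at *
  rcases h with h | h | h
  · exact Or.inr (Or.inl (by linarith))
  · exact Or.inl (by linarith)
  · exact Or.inr (Or.inr h)

theorem Sep.swap {a b : ℝ} (h : Sep a b) : Sep b a := by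
  unfold Sep at *
  tauto

theorem Touch.neg {a b : ℝ} (h : Touch a b) : Touch (-a) b := ⟨h.1.neg, near_neg.2 h.2⟩

theorem beside {i k c d e₁ e₂ : ℝ} (hcd : (c = k ∧ d = k + 1) ∨ (c = k + 1 ∧ d = k))
    (ec : Touch (e₁ - i) (e₂ - c)) (ed : Touch (e₁ - i) (e₂ - d)) :
    (e₁ = i + 1 ∨ e₁ = i - 1) ∧ k ≤ e₂ ∧ e₂ ≤ k + 1 := by
  obtain ⟨s, n1, n2, n3, n4⟩ := ec
  obtain ⟨t, -, -, m3, m4⟩ := ed
  have a : k ≤ e₂ ∧ e₂ ≤ k + 1 := by
    rcases hcd with ⟨rfl, rfl⟩ | ⟨rfl, rfl⟩ <;> exact ⟨by linarith, by linarith⟩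
  refine ⟨?_, a⟩
  by_contra hn
  rw [not_or] at hn
  have p : e₁ - i < 1 := lt_of_le_of_ne n2 fun e => hn.1 (by linarith)
  have q : -1 < e₁ - i := lt_of_le_of_ne n1 fun e => hn.2 (by linarith)
  rcases hcd with ⟨rfl, rfl⟩ | ⟨rfl, rfl⟩ <;> rcases s with s | s | s | s <;>
    rcases t with t | t | t | t <;> linarith

theorem across {i k e₁ e₂ f₁ f₂ : ℝ} (he : e₁ = i) (hf : f₁ = i) (e1 : k ≤ e₂) (e2 : e₂ ≤ k + 1)
    (f1 : k ≤ f₂) (f2 : f₂ ≤ k + 1) (h : Sep (e₁ - f₁) (e₂ - f₂)) : Rung k i e₁ e₂ f₁ f₂ := by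
  refine ⟨he, hf, ?_⟩
  rcases h with s | s | s | s
  · linarith
  · linarith
  · exact Or.inr ⟨by linarith, by linarith⟩
  · exact Or.inl ⟨by linarith, by linarith⟩

theorem ladder {k : ℝ} {a₁ a₂ b₁ b₂ : ℤ → ℝ} {hi : ℤ}
    (h0 : Rung k 0 (a₁ 0) (a₂ 0) (b₁ 0) (b₂ 0)) (h1 : Rung k 1 (a₁ 1) (a₂ 1) (b₁ 1) (b₂ 1))
    (ht : ∀ r, 1 ≤ r → r < hi →
      Touch (a₁ (r + 1) - a₁ r) (a₂ (r + 1) - a₂ r) ∧ Touch (a₁ (r + 1) - b₁ r) (a₂ (r + 1) - b₂ r) ∧
      Touch (b₁ (r + 1) - a₁ r) (b₂ (r + 1) - a₂ r) ∧ Touch (b₁ (r + 1) - b₁ r) (b₂ (r + 1) - b₂ r) ∧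
      Sep (a₁ (r + 1) - b₁ (r + 1)) (a₂ (r + 1) - b₂ (r + 1)) ∧
      ¬Near (a₁ (r + 1) - a₁ (r - 1)) (a₂ (r + 1) - a₂ (r - 1)) ∧
      ¬Near (b₁ (r + 1) - a₁ (r - 1)) (b₂ (r + 1) - a₂ (r - 1))) :
    ∀ r : ℤ, 0 ≤ r → r ≤ hi → Rung k r (a₁ r) (a₂ r) (b₁ r) (b₂ r) := by
  have key : ∀ r : ℤ, 1 ≤ r → r ≤ hi → Rung k (r - 1) (a₁ (r - 1)) (a₂ (r - 1)) (b₁ (r - 1))
      (b₂ (r - 1)) ∧ Rung k r (a₁ r) (a₂ r) (b₁ r) (b₂ r) := by
    intro r hr
    induction r, hr using Int.leInduction with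
    | base => exact fun _ => ⟨by simpa using h0, by simpa using h1⟩
    | succ r hr ih =>
      intro h
      obtain ⟨⟨p1, -, p3⟩, q⟩ := ih (by omega)
      obtain ⟨t1, t2, t3, t4, t5, t6, t7⟩ := ht r hr (by omega)
      refine ⟨by simpa using q, ?_⟩
      obtain ⟨q1, q2, q3⟩ := q
      rw [q1] at t1 t3
      rw [q2] at t2 t4
      rw [p1] at t6 t7
      obtain ⟨x1, x2, x3⟩ := beside q3 t1 t2
      obtain ⟨y1, y2, y3⟩ := beside q3 t3 t4
      have z : k ≤ a₂ (r - 1) ∧ a₂ (r - 1) ≤ k + 1 := by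
        rcases p3 with ⟨e, -⟩ | ⟨e, -⟩ <;> exact ⟨by linarith, by linarith⟩
      refine across ?_ ?_ x2 x3 y2 y3 t5
      · push_cast
        refine x1.resolve_right fun e => t6 ⟨?_, ?_, ?_, ?_⟩ <;> linarith [z.1, z.2]
      · push_cast
        refine y1.resolve_right fun e => t7 ⟨?_, ?_, ?_, ?_⟩ <;> linarith [z.1, z.2]
  intro r h0' hr
  rcases h0'.eq_or_lt with rfl | h
  · simpa using h0
  · exact (key r (by omega) hr).2

theorem side_aux {t x y : ℝ} (ht : 0 < t) (h : Touch x y) (h' : Touch (x - t) (y - 1)) :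
    (x = 1 ∧ y = 0) ∨ (x = t - 1 ∧ y = 1) ∨ 1 < t := by
  obtain ⟨s, n1, n2, n3, n4⟩ := h
  obtain ⟨s', m1, m2, m3, m4⟩ := h'
  rcases s with s | s | s | s <;> rcases s' with s' | s' | s' | s'
  all_goals first
    | (exfalso; linarith)
    | exact Or.inl ⟨by linarith, by linarith⟩
    | exact Or.inr (Or.inl ⟨by linarith, by linarith⟩)
    | exact Or.inr (Or.inr (by linarith))

theorem side_pos {t x₁ y₁ x₂ y₂ x₃ y₃ : ℝ} (ht : 0 < t) (ht' : t ≤ 1) (h₁ : Touch x₁ y₁)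
    (k₁ : Touch (x₁ - t) (y₁ - 1)) (h₂ : Touch x₂ y₂) (k₂ : Touch (x₂ - t) (y₂ - 1))
    (h₃ : Touch x₃ y₃) (k₃ : Touch (x₃ - t) (y₃ - 1)) (s₁ : Sep (x₁ - x₂) (y₁ - y₂))
    (s₂ : Sep (x₁ - x₃) (y₁ - y₃)) (s₃ : Sep (x₂ - x₃) (y₂ - y₃)) : False := by
  have no : ¬Sep 0 0 := by
    unfold Sep
    norm_num
  rcases side_aux ht h₁ k₁ with ⟨rfl, rfl⟩ | ⟨rfl, rfl⟩ | a <;>
    rcases side_aux ht h₂ k₂ with ⟨rfl, rfl⟩ | ⟨rfl, rfl⟩ | b <;>
    rcases side_aux ht h₃ k₃ with ⟨rfl, rfl⟩ | ⟨rfl, rfl⟩ | c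
  all_goals first
    | linarith
    | exact no (by simpa using s₁)
    | exact no (by simpa using s₂)
    | exact no (by simpa using s₃)

theorem side {t x₁ y₁ x₂ y₂ x₃ y₃ : ℝ} (ht : -1 ≤ t) (ht' : t ≤ 1) (h₁ : Touch x₁ y₁)
    (k₁ : Touch (x₁ - t) (y₁ - 1)) (h₂ : Touch x₂ y₂) (k₂ : Touch (x₂ - t) (y₂ - 1))
    (h₃ : Touch x₃ y₃) (k₃ : Touch (x₃ - t) (y₃ - 1)) (s₁ : Sep (x₁ - x₂) (y₁ - y₂))
    (s₂ : Sep (x₁ - x₃) (y₁ - y₃)) (s₃ : Sep (x₂ - x₃) (y₂ - y₃)) : t = 0 := by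
  rcases lt_trichotomy t 0 with h | h | h
  · refine (side_pos (t := -t) (by linarith) (by linarith) h₁.neg ?_ h₂.neg ?_ h₃.neg ?_ ?_ ?_
      ?_).elim
    · convert k₁.neg using 1; ring
    · convert k₂.neg using 1; ring
    · convert k₃.neg using 1; ring
    · convert s₁.neg using 1; ring
    · convert s₂.neg using 1; ring
    · convert s₃.neg using 1; ring
  · exact h
  · exact (side_pos h ht' h₁ k₁ h₂ k₂ h₃ k₃ s₁ s₂ s₃).elim

theorem flag {y k l r f₁ f₂ p q : ℝ} (hr : (l = k ∧ r = k + 1) ∨ (l = k + 1 ∧ r = k))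
    (h1 : Near (f₁ - (y - 1)) (f₂ - p)) (h2 : Near (f₁ - (y + 1)) (f₂ - q))
    (h3 : Touch (f₁ - y) (f₂ - r)) (h4 : ¬Near (f₁ - y) (f₂ - l)) :
    f₁ = y ∧ ((r = k + 1 ∧ f₂ = k + 2) ∨ (r = k ∧ f₂ = k - 1)) := by
  have e : f₁ = y := by linarith [h1.2.1, h2.1]
  obtain ⟨s, -, -, n3, n4⟩ := h3
  refine ⟨e, ?_⟩
  rcases hr with ⟨rfl, rfl⟩ | ⟨rfl, rfl⟩
  · refine Or.inl ⟨rfl, ?_⟩
    rcases s with s | s | s | s
    · linarith
    · linarith
    · linarith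
    · exact (h4 ⟨by linarith, by linarith, by linarith, by linarith⟩).elim
  · refine Or.inr ⟨rfl, ?_⟩
    rcases s with s | s | s | s
    · linarith
    · linarith
    · exact (h4 ⟨by linarith, by linarith, by linarith, by linarith⟩).elim
    · linarith

variable {n M : ℤ} {occ : ℤ → ℤ → Prop} {u v : ℤ → ℤ → ℝ}

theorem Emb.swap (h : Emb n M occ u v) : Emb n M occ v u := fun X y X' y' s s' ne =>
  ⟨(h X y X' y' s s' ne).1.swap, (h X y X' y' s s' ne).2.trans near_swap⟩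

theorem Emb.shift (h : Emb n M occ u v) (t : ℝ) : Emb n M occ (fun X y => u X y + t) v := by
  intro X y X' y' s s' ne
  simpa only [add_sub_add_right_eq_sub] using h X y X' y' s s' ne

theorem Emb.refl (h : Emb n M occ u v) (t : ℝ) : Emb n M occ (fun X y => t - u X y) v := by
  intro X y X' y' s s' ne
  have e : t - u X y - (t - u X' y') = -(u X y - u X' y') := by ring
  simp only [e, near_neg]
  exact ⟨(h X y X' y' s s' ne).1.neg, (h X y X' y' s s' ne).2⟩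

theorem Emb.touch (h : Emb n M occ u v) {X y X' y' : ℤ} (s : S n M occ X y) (s' : S n M occ X' y')
    (a : Adj X y X' y') : Touch (u X y - u X' y') (v X y - v X' y') :=
  ⟨(h X y X' y' s s' a.1).1, (h X y X' y' s s' a.1).2.1 a⟩

theorem Emb.far (h : Emb n M occ u v) {X y X' y' : ℤ} (s : S n M occ X y) (s' : S n M occ X' y')
    (ne : ¬(X = X' ∧ y = y')) (a : ¬Adj X y X' y') : ¬Near (u X y - u X' y') (v X y - v X' y') :=
  fun k => a ((h X y X' y' s s' ne).2.2 k)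

theorem S_shaft {X y : ℤ} (h0 : 0 ≤ X) (h1 : X < 4 * (n + 2)) (hy : y = 0 ∨ y = 1) :
    S n M occ X y := ⟨h0, h1, hy.elim Or.inl fun h => Or.inr (Or.inl h)⟩

theorem S_arm {X y : ℤ} (h0 : 0 ≤ X) (h1 : X < 4 * (n + 2)) (hx : X % 4 = 1 ∨ X % 4 = 2)
    (h2 : -3 * M - 1 ≤ y) (h3 : y ≤ 3 * M + 2) : S n M occ X y :=
  ⟨h0, h1, Or.inr (Or.inr (Or.inl ⟨hx, h2, h3⟩))⟩

theorem Emb.shaft (h : Emb n M occ u v) (h0 : Rung 0 0 (u 0 0) (v 0 0) (u 0 1) (v 0 1))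
    (h1 : Rung 0 1 (u 1 0) (v 1 0) (u 1 1) (v 1 1)) (X : ℤ) (a : 0 ≤ X) (b : X < 4 * (n + 2)) :
    Rung 0 X (u X 0) (v X 0) (u X 1) (v X 1) := by
  refine ladder (a₁ := fun r => u r 0) (a₂ := fun r => v r 0) (b₁ := fun r => u r 1)
    (b₂ := fun r => v r 1) (hi := 4 * (n + 2) - 1) h0 h1 (fun r r1 r2 => ?_) X a (by omega)
  have s : ∀ X y, r - 1 ≤ X → X ≤ r + 1 → (y = 0 ∨ y = 1) → S n M occ X y := fun X y a b c =>
    S_shaft (by omega) (by omega) c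
  refine ⟨h.touch ?_ ?_ ?_, h.touch ?_ ?_ ?_, h.touch ?_ ?_ ?_, h.touch ?_ ?_ ?_,
    (h.touch ?_ ?_ ?_).1, h.far ?_ ?_ ?_ ?_, h.far ?_ ?_ ?_ ?_⟩
  all_goals first
    | exact s _ _ (by omega) (by omega) (by omega)
    | omega
    | (unfold Adj; omega)

theorem Emb.arm (hM : 0 ≤ M) (h : Emb n M occ u v) {j : ℤ} (j0 : 0 ≤ j) (j1 : j ≤ n + 1)
    (c1 : Rung 0 (4 * j + 1 : ℤ) (u (4 * j + 1) 0) (v (4 * j + 1) 0) (u (4 * j + 1) 1)
      (v (4 * j + 1) 1))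
    (c2 : Rung 0 (4 * j + 2 : ℤ) (u (4 * j + 2) 0) (v (4 * j + 2) 0) (u (4 * j + 2) 1)
      (v (4 * j + 2) 1))
    (hv : v (4 * j + 1) 1 = 1) (y : ℤ) (y0 : -3 * M - 1 ≤ y) (y1 : y ≤ 3 * M + 2) :
    Rung (4 * j + 1) y (v (4 * j + 1) y) (u (4 * j + 1) y) (v (4 * j + 2) y) (u (4 * j + 2) y) := by
  have s : ∀ X y, (X = 4 * j + 1 ∨ X = 4 * j + 2) → -3 * M - 1 ≤ y → y ≤ 3 * M + 2 →
      S n M occ X y := fun X y a b c => S_arm (by omega) (by omega) (by omega) b c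
  obtain ⟨a1, a2, a3⟩ := c1
  obtain ⟨b1, b2, b3⟩ := c2
  push_cast at a1 a2 b1 b2
  have v0 : v (4 * j + 1) 0 = 0 := by
    rcases a3 with ⟨e, -⟩ | ⟨-, e⟩ <;> linarith
  have w : v (4 * j + 2) 0 = 0 ∧ v (4 * j + 2) 1 = 1 := by
    rcases b3 with ⟨e, e'⟩ | ⟨e, e'⟩
    · exact ⟨e, by linarith⟩
    · have t1 := (h.touch (s (4 * j + 1) 2 (by omega) (by omega) (by omega))
        (s (4 * j + 1) 1 (by omega) (by omega) (by omega)) (by unfold Adj; omega)).2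
      have t2 := (h.touch (s (4 * j + 1) 2 (by omega) (by omega) (by omega))
        (s (4 * j + 2) 1 (by omega) (by omega) (by omega)) (by unfold Adj; omega)).2
      refine (h.far (s (4 * j + 1) 2 (by omega) (by omega) (by omega))
        (s (4 * j + 1) 0 (by omega) (by omega) (by omega)) (by omega) (by unfold Adj; omega)
        ⟨?_, ?_, ?_, ?_⟩).elim <;> linarith [t1.1, t1.2.1, t2.2.2.1, t2.2.2.2]
  rcases le_or_gt 0 y with hy | hy
  · refine ladder (a₁ := fun r => v (4 * j + 1) r) (a₂ := fun r => u (4 * j + 1) r)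
      (b₁ := fun r => v (4 * j + 2) r) (b₂ := fun r => u (4 * j + 2) r) (hi := 3 * M + 2)
      ⟨v0, w.1, Or.inl ⟨a1, by linarith⟩⟩ ⟨hv, w.2, Or.inl ⟨a2, by linarith⟩⟩
      (fun r r1 r2 => ?_) y hy y1
    have g := h.swap
    refine ⟨g.touch ?_ ?_ ?_, g.touch ?_ ?_ ?_, g.touch ?_ ?_ ?_, g.touch ?_ ?_ ?_,
      (g.touch ?_ ?_ ?_).1, g.far ?_ ?_ ?_ ?_, g.far ?_ ?_ ?_ ?_⟩
    all_goals first
      | exact s _ _ (by omega) (by omega) (by omega)
      | omega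
      | (unfold Adj; omega)
  · have := ladder (k := 4 * j + 1) (a₁ := fun r => 1 - v (4 * j + 1) (1 - r))
      (a₂ := fun r => u (4 * j + 1) (1 - r)) (b₁ := fun r => 1 - v (4 * j + 2) (1 - r))
      (b₂ := fun r => u (4 * j + 2) (1 - r)) (hi := 3 * M + 2)
      ⟨by simp [hv], by simp [w.2], Or.inl ⟨by simpa using a2, by simp [b2]; ring⟩⟩
      ⟨by simp [v0], by simp [w.1], Or.inl ⟨by simpa using a1, by simp [b1]; ring⟩⟩
      (fun r r1 r2 => ?_) (1 - y) (by omega) (by omega)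
    · simp only [sub_sub_cancel] at this
      obtain ⟨e1, e2, e3⟩ := this
      push_cast at e1 e2
      exact ⟨by linarith, by linarith, e3⟩
    have g := h.swap.refl 1
    refine ⟨g.touch ?_ ?_ ?_, g.touch ?_ ?_ ?_, g.touch ?_ ?_ ?_, g.touch ?_ ?_ ?_,
      (g.touch ?_ ?_ ?_).1, g.far ?_ ?_ ?_ ?_, g.far ?_ ?_ ?_ ?_⟩
    all_goals first
      | exact s _ _ (by omega) (by omega) (by omega)
      | omega
      | (unfold Adj; omega)

theorem Emb.cell (hM : 0 ≤ M) (h : Emb n M occ u v) {j : ℤ} (j0 : 0 ≤ j) (j1 : j ≤ n + 1)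
    (c1 : Rung 0 (4 * j + 1 : ℤ) (u (4 * j + 1) 0) (v (4 * j + 1) 0) (u (4 * j + 1) 1)
      (v (4 * j + 1) 1))
    (c2 : Rung 0 (4 * j + 2 : ℤ) (u (4 * j + 2) 0) (v (4 * j + 2) 0) (u (4 * j + 2) 1)
      (v (4 * j + 2) 1))
    (hv : v (4 * j + 1) 1 = 1) {y : ℤ} (hy : Row M y) :
    (S n M occ (4 * j + 3) y → v (4 * j + 3) y = y ∧
      ((u (4 * j + 2) y = 4 * j + 2 ∧ u (4 * j + 3) y = 4 * j + 3) ∨
        (u (4 * j + 2) y = 4 * j + 1 ∧ u (4 * j + 3) y = 4 * j))) ∧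
    (S n M occ (4 * j) y → v (4 * j) y = y ∧
      ((u (4 * j + 2) y = 4 * j + 1 ∧ u (4 * j) y = 4 * j + 3) ∨
        (u (4 * j + 2) y = 4 * j + 2 ∧ u (4 * j) y = 4 * j))) := by
  have b : -3 * M ≤ y ∧ y ≤ 3 * M + 1 := by
    unfold Row at hy
    omega
  have s : ∀ X y, (X = 4 * j + 1 ∨ X = 4 * j + 2) → -3 * M - 1 ≤ y → y ≤ 3 * M + 2 →
      S n M occ X y := fun X y a b c => S_arm (by omega) (by omega) (by omega) b c
  obtain ⟨p1, p2, -⟩ := h.arm hM j0 j1 c1 c2 hv (y - 1) (by omega) (by omega)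
  obtain ⟨q1, q2, q3⟩ := h.arm hM j0 j1 c1 c2 hv y (by omega) (by omega)
  obtain ⟨r1, r2, -⟩ := h.arm hM j0 j1 c1 c2 hv (y + 1) (by omega) (by omega)
  push_cast at p1 p2 r1 r2
  have g := h.swap
  refine ⟨fun f => ?_, fun f => ?_⟩
  · have t1 := (g.touch f (s (4 * j + 2) (y - 1) (by omega) (by omega) (by omega))
      (by unfold Adj; omega)).2
    have t2 := (g.touch f (s (4 * j + 2) (y + 1) (by omega) (by omega) (by omega))
      (by unfold Adj; omega)).2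
    have t3 := g.touch f (s (4 * j + 2) y (by omega) (by omega) (by omega)) (by unfold Adj; omega)
    have t4 := g.far f (s (4 * j + 1) y (by omega) (by omega) (by omega)) (by omega)
      (by unfold Adj; omega)
    rw [p2] at t1
    rw [r2] at t2
    rw [q2] at t3
    rw [q1] at t4
    obtain ⟨e, k⟩ := flag q3 t1 t2 t3 t4
    exact ⟨e, k.imp (fun k => ⟨by linarith [k.1], by linarith [k.2]⟩)
      fun k => ⟨by linarith [k.1], by linarith [k.2]⟩⟩
  · have t1 := (g.touch f (s (4 * j + 1) (y - 1) (by omega) (by omega) (by omega))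
      (by unfold Adj; omega)).2
    have t2 := (g.touch f (s (4 * j + 1) (y + 1) (by omega) (by omega) (by omega))
      (by unfold Adj; omega)).2
    have t3 := g.touch f (s (4 * j + 1) y (by omega) (by omega) (by omega)) (by unfold Adj; omega)
    have t4 := g.far f (s (4 * j + 2) y (by omega) (by omega) (by omega)) (by omega)
      (by unfold Adj; omega)
    rw [p1] at t1
    rw [r1] at t2
    rw [q1] at t3
    rw [q2] at t4
    obtain ⟨e, k⟩ := flag (k := 4 * j + 1) (by tauto) t1 t2 t3 t4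
    refine ⟨e, k.imp (fun k => ⟨?_, by linarith [k.2]⟩) fun k => ⟨?_, by linarith [k.2]⟩⟩
    · rcases q3 with q | q <;> linarith [k.1, q.1, q.2]
    · rcases q3 with q | q <;> linarith [k.1, q.1, q.2]

theorem sound_zero (hn : 0 ≤ n) (hM : 0 ≤ M) (h : Emb n M occ u v)
    (h0 : Rung 0 0 (u 0 0) (v 0 0) (u 0 1) (v 0 1))
    (h1 : Rung 0 1 (u 1 0) (v 1 0) (u 1 1) (v 1 1)) : ∃ ν, Split n M occ ν := by
  classical
  refine ⟨fun j => decide (v (4 * j + 1) 1 = 1), fun i i0 i1 σ => ?_⟩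
  by_contra hc
  obtain ⟨z, hz, hσ⟩ : ∃ z : ℤ, (z = 3 * i + 4 ∨ z = -3 * i - 3) ∧ (σ = true ↔ z = 3 * i + 4) := by
    cases σ
    · exact ⟨-3 * i - 3, Or.inr rfl, by simp; omega⟩
    · exact ⟨3 * i + 4, Or.inl rfl, by simp⟩
  have key : ∀ j, 0 ≤ j → j ≤ n + 1 → ∃ y, Row M y ∧ S n M occ (4 * j + 3) y ∧
      v (4 * j + 3) y = z ∧ (S n M occ (4 * j) y → v (4 * j) y = z) ∧
      ((u (4 * j + 3) y = 4 * j + 3 ∧ (S n M occ (4 * j) y → u (4 * j) y = 4 * j)) ∨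
        (u (4 * j + 3) y = 4 * j ∧ (S n M occ (4 * j) y → u (4 * j) y = 4 * j + 3))) := by
    intro j j0 j1
    have c1 := h.shaft h0 h1 (4 * j + 1) (by omega) (by omega)
    have c2 := h.shaft h0 h1 (4 * j + 2) (by omega) (by omega)
    have e4 : (4 * j + 3) / 4 = j := by omega
    have fl : ∀ y, Row M y → (y = 3 * i + 4 ∨ y < 0) →
        (y = 3 * i + 4 → decide (v (4 * j + 1) 1 = 1) = σ) → S n M occ (4 * j + 3) y := by
      intro y r a b
      refine ⟨by omega, by omega, Or.inr (Or.inr (Or.inr ⟨r, ?_⟩))⟩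
      by_cases w : j = 0 ∨ j = n + 1
      · exact Or.inl ⟨by omega, by omega⟩
      refine Or.inr ⟨by omega, a.symm.imp_right fun a o => hc ⟨j, by omega, by omega, ?_, b a⟩⟩
      rwa [e4, show (y - 4) / 3 = i by omega] at o
    have fin : ∀ {w : ℤ → ℤ → ℝ} {y : ℤ}, S n M occ (4 * j + 3) y →
        (S n M occ (4 * j + 3) y → w (4 * j + 3) y = y ∧
          ((u (4 * j + 2) y = 4 * j + 2 ∧ u (4 * j + 3) y = 4 * j + 3) ∨
            (u (4 * j + 2) y = 4 * j + 1 ∧ u (4 * j + 3) y = 4 * j))) ∧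
        (S n M occ (4 * j) y → w (4 * j) y = y ∧
          ((u (4 * j + 2) y = 4 * j + 1 ∧ u (4 * j) y = 4 * j + 3) ∨
            (u (4 * j + 2) y = 4 * j + 2 ∧ u (4 * j) y = 4 * j))) →
        (u (4 * j + 3) y = 4 * j + 3 ∧ (S n M occ (4 * j) y → u (4 * j) y = 4 * j)) ∨
          (u (4 * j + 3) y = 4 * j ∧ (S n M occ (4 * j) y → u (4 * j) y = 4 * j + 3)) := by
      intro w y f k
      refine (k.1 f).2.imp (fun a => ⟨a.2, fun f' => ?_⟩) fun a => ⟨a.2, fun f' => ?_⟩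
      · rcases (k.2 f').2 with b | b <;> linarith [a.1, b.1, b.2]
      · rcases (k.2 f').2 with b | b <;> linarith [a.1, b.1, b.2]
    by_cases hv : v (4 * j + 1) 1 = 1
    · have r : Row M z := by
        unfold Row
        omega
      have f := fl z r (by omega) fun e => by rw [hσ.2 e]; exact decide_eq_true hv
      have k := h.cell hM j0 j1 c1 c2 hv r
      exact ⟨z, r, f, (k.1 f).1, fun f' => (k.2 f').1, fin f k⟩
    · have r : Row M (1 - z) := by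
        unfold Row
        omega
      have f := fl (1 - z) r (by omega) fun e => by
        rw [decide_eq_false hv]
        cases σ
        · rfl
        · have := hσ.1 rfl
          omega
      have flip : ∀ {i a b c d : ℝ}, Rung 0 i a b c d → Rung 0 i a (1 - b) c (1 - d) :=
        fun q => ⟨q.1, q.2.1, q.2.2.symm.imp (fun q => ⟨by linarith [q.1], by linarith [q.2]⟩)
          fun q => ⟨by linarith [q.1], by linarith [q.2]⟩⟩
      have k := (h.swap.refl 1).swap.cell hM j0 j1 (flip c1) (flip c2) (by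
        rcases c1.2.2 with q | q
        · exact absurd (by linarith [q.2]) hv
        · linarith [q.2]) r
      refine ⟨1 - z, r, f, ?_, fun f' => ?_, fin (w := fun X y => 1 - v X y) f k⟩
      · have := (k.1 f).1
        push_cast at this
        linarith
      · have := (k.2 f').1
        push_cast at this
        linarith
  have wall : ∀ j y, (j = 0 ∨ j = n + 1) → Row M y → S n M occ (4 * j) y := fun j y w r =>
    ⟨by omega, by omega, Or.inr (Or.inr (Or.inr ⟨r, Or.inl ⟨by omega, by omega⟩⟩))⟩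
  have clash : ∀ (j X y X' y' : ℤ), S n M occ X y → S n M occ X' y' → X / 4 = j → X' / 4 = j + 1 →
      Row M y → u X y = 4 * j + 3 → v X y = z → u X' y' = 4 * (j + 1 : ℤ) → v X' y' = z →
      False := by
    intro j X y X' y' s s' a b r e1 e2 e3 e4
    push_cast at e3
    refine h.far s s' (by omega) (by unfold Adj; unfold Row at r; omega) ⟨?_, ?_, ?_, ?_⟩ <;>
      linarith
  have all : ∀ j, 0 ≤ j → j ≤ n → ∃ X y, S n M occ X y ∧ X / 4 = j ∧ Row M y ∧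
      u X y = 4 * j + 3 ∧ v X y = z := by
    intro j j0
    induction j, j0 using Int.leInduction with
    | base =>
      intro _
      obtain ⟨y, r, f, a, b, c | c⟩ := key 0 le_rfl (by omega)
      · exact ⟨_, y, f, by omega, r, c.1, a⟩
      · have f' := wall 0 y (Or.inl rfl) r
        exact ⟨_, y, f', by omega, r, c.2 f', b f'⟩
    | succ j j0 ih =>
      intro j1
      obtain ⟨X, y₀, s, e, r₀, e1, e2⟩ := ih (by omega)
      obtain ⟨y, r, f, a, -, c | c⟩ := key (j + 1) (by omega) (by omega)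
      · exact ⟨_, y, f, by omega, r, c.1, a⟩
      · exact (clash j X y₀ _ y s f e (by omega) r₀ e1 e2 c.1 a).elim
  obtain ⟨X, y₀, s, e, r₀, e1, e2⟩ := all n hn le_rfl
  obtain ⟨y, r, f, a, b, c | c⟩ := key (n + 1) (by omega) le_rfl
  · have f' := wall (n + 1) y (Or.inr rfl) r
    exact clash n X y₀ _ y s f' e (by omega) r₀ e1 e2 (c.2 f') (b f')
  · exact clash n X y₀ _ y s f e (by omega) r₀ e1 e2 c.1 a

theorem sound_one (hn : 0 ≤ n) (hM : 0 ≤ M) (h : Emb n M occ u v) (e : v 1 1 = v 1 0 + 1) :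
    ∃ ν, Split n M occ ν := by
  have s : ∀ X y, 0 ≤ X → X ≤ 2 → (y = 0 ∨ y = 1) → S n M occ X y := fun X y a b c =>
    S_shaft a (by omega) c
  have t : ∀ X y X' y', 0 ≤ X → X ≤ 2 → (y = 0 ∨ y = 1) → 0 ≤ X' → X' ≤ 2 → (y' = 0 ∨ y' = 1) →
      Adj X y X' y' → Touch (u X y - u X' y') (v X y - v X' y') := fun X y X' y' a b c a' b' c' =>
    h.touch (s X y a b c) (s X' y' a' b' c')
  have p : ∀ X y X' y', 0 ≤ X → X ≤ 2 → (y = 0 ∨ y = 1) → 0 ≤ X' → X' ≤ 2 → (y' = 0 ∨ y' = 1) →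
      ¬(X = X' ∧ y = y') → Sep (u X y - u 1 0 - (u X' y' - u 1 0))
        (v X y - v 1 0 - (v X' y' - v 1 0)) := fun X y X' y' a b c a' b' c' ne => by
    simpa only [sub_sub_sub_cancel_right] using (h X y X' y' (s X y a b c) (s X' y' a' b' c') ne).1
  have q : ∀ X y, (X = 0 ∨ X = 2) → (y = 0 ∨ y = 1) → Touch (u X y - u 1 0) (v X y - v 1 0) ∧
      Touch (u X y - u 1 1) (v X y - v 1 1) := fun X y a b =>
    ⟨t X y 1 0 (by omega) (by omega) b (by omega) (by omega) (by omega) (by unfold Adj; omega),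
      t X y 1 1 (by omega) (by omega) b (by omega) (by omega) (by omega) (by unfold Adj; omega)⟩
  have q' : ∀ X y, (X = 0 ∨ X = 2) → (y = 0 ∨ y = 1) →
      Touch (u X y - u 1 0 - (u 1 1 - u 1 0)) (v X y - v 1 0 - 1) := fun X y a b => by
    convert (q X y a b).2 using 1
    · ring
    · linarith
  have cd := t 1 1 1 0 (by omega) (by omega) (by omega) (by omega) (by omega) (by omega)
    (by unfold Adj; omega)
  have z := side cd.2.1 cd.2.2.1 (q 0 0 (by omega) (by omega)).1 (q' 0 0 (by omega) (by omega))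
    (q 0 1 (by omega) (by omega)).1 (q' 0 1 (by omega) (by omega))
    (q 2 0 (by omega) (by omega)).1 (q' 2 0 (by omega) (by omega))
    (p 0 0 0 1 (by omega) (by omega) (by omega) (by omega) (by omega) (by omega) (by omega))
    (p 0 0 2 0 (by omega) (by omega) (by omega) (by omega) (by omega) (by omega) (by omega))
    (p 0 1 2 0 (by omega) (by omega) (by omega) (by omega) (by omega) (by omega) (by omega))
  have z' : u 1 1 = u 1 0 := by linarith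
  have b : ∀ y, (y = 0 ∨ y = 1) → (u 0 y = u 1 0 + 1 ∨ u 0 y = u 1 0 - 1) ∧ v 1 0 ≤ v 0 y ∧
      v 0 y ≤ v 1 0 + 1 := fun y hy =>
    beside (Or.inl ⟨rfl, e⟩) (q 0 y (by omega) hy).1 (z' ▸ (q 0 y (by omega) hy).2)
  obtain ⟨a1, a2, a3⟩ := b 0 (by omega)
  obtain ⟨b1, b2, b3⟩ := b 1 (by omega)
  have ab := t 0 0 0 1 (by omega) (by omega) (by omega) (by omega) (by omega) (by omega)
    (by unfold Adj; omega)
  have eq : u 0 1 = u 0 0 := by
    rcases a1 with a1 | a1 <;> rcases b1 with b1 | b1 <;> linarith [ab.2.1, ab.2.2.1]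
  have r := (across (k := v 1 0) rfl eq a2 a3 b2 b3 ab.1).2.2
  have r' : (v 0 0 + -v 1 0 = 0 ∧ v 0 1 + -v 1 0 = 0 + 1) ∨
      (v 0 0 + -v 1 0 = 0 + 1 ∧ v 0 1 + -v 1 0 = 0) :=
    r.imp (fun k => ⟨by linarith [k.1], by linarith [k.2]⟩)
      fun k => ⟨by linarith [k.1], by linarith [k.2]⟩
  have g := (h.swap.shift (-v 1 0)).swap
  rcases a1 with a1 | a1
  · exact sound_zero hn hM (g.refl (u 0 0)) ⟨by simp, by simp [eq], r'⟩
      ⟨by linarith, by linarith, Or.inl ⟨by simp, by simp [e]⟩⟩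
  · exact sound_zero hn hM (g.shift (-u 0 0)) ⟨by simp, by simp [eq], r'⟩
      ⟨by linarith, by linarith, Or.inl ⟨by simp, by simp [e]⟩⟩

theorem sound (hn : 0 ≤ n) (hM : 0 ≤ M) (h : Emb n M occ u v) : ∃ ν, Split n M occ ν := by
  obtain ⟨s, n1, n2, n3, n4⟩ := h.touch (S_shaft (X := 1) (y := 1) (by omega) (by omega) (by omega))
    (S_shaft (X := 1) (y := 0) (by omega) (by omega) (by omega)) (by unfold Adj; omega)
  rcases s with s | s | s | s
  · exact sound_one hn hM h.swap (by linarith)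
  · exact sound_one hn hM (h.refl 0).swap (by linarith)
  · exact sound_one hn hM h (by linarith)
  · exact sound_one hn hM (h.swap.refl 0).swap (by linarith)

end Pool.Agent.Lib.MP_0e6856_lc.King
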